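import Pool.Agent.Helper707.EC.Fwd
import Pool.Agent.Helper707.EC.Bwd
import Pool.Agent.Helper707.EC.K6

set_option autoImplicit false
open Matrix
open scoped ComplexOrder

namespace Pool.Agent.Results.MP_2482e4_mp.AutoparallelPower

open MP2482e4

/-- A set of matrices closed under the triple product `[A,[B,C]]`. -/
def IsLieTriple {n : ℕ} (W : Set (Mat n)) : Prop :=
  ∀ A ∈ W, ∀ B ∈ W, ∀ C ∈ W, ⁅A, ⁅B, C⁆⁆ ∈ W

/-- For every `p > 0`, every state `ρ` and every subspace `V` of `T_ρ S`, the following are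
equivalent for the metric with Petz function `f_p` (a monotone metric for `0 < p ≤ 1`):
(1) there is a `∇^(e)`-autoparallel submanifold `N ∋ ρ` with `T_ρ N = V`;
(2) `W` is closed under `[A,[B,C]]`, and for `A, B ∈ W` there is `C ∈ W` with
`[[A,B], ρ^p] = C ρ^p + ρ^p C`;
(3) `W` is closed under `[A,[B,C]]`, and there is `A ∈ W` such that `e^A ρ^p e^A` commutes with
all `[B,C]`, `B, C ∈ W`. -/
theorem result {n : ℕ} {p : ℝ} (hp : 0 < p) (ρ : Mat n) (hρ : ρ.PosDef) (htr : ρ.trace = 1)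
    (V : Submodule ℝ (Mat n)) (hV : V ≤ tangentS n) :
    List.TFAE
      [Realised (fp p) ρ V,
       IsLieTriple (eSpace (fp p) ρ V) ∧
         ∀ A ∈ eSpace (fp p) ρ V, ∀ B ∈ eSpace (fp p) ρ V, ∃ C ∈ eSpace (fp p) ρ V,
           ⁅⁅A, B⁆, pw ρ p⁆ = C * pw ρ p + pw ρ p * C,
       IsLieTriple (eSpace (fp p) ρ V) ∧
         ∃ A ∈ eSpace (fp p) ρ V, ∀ B ∈ eSpace (fp p) ρ V, ∀ C ∈ eSpace (fp p) ρ V,
           ⁅⁅B, C⁆, NormedSpace.exp A * pw ρ p * NormedSpace.exp A⁆ = 0] := by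
  have hf : ∀ t, 0 < t → 0 < fp p t := fun t ht => fp_pos hp ht
  have hs : ∀ t, 0 < t → t * fp p t⁻¹ = fp p t := fun t ht => fp_symm hp ht
  have h1 : fp p 1 = 1 := fp_one p
  obtain ⟨k, a, haH, hE, -, -, -⟩ := eSpace_basis hf hs h1 hρ htr hV
  let W : Submodule ℝ (Mat n) :=
    { carrier := {A | ∃ (s : ℝ) (v : Fin k → ℝ), A = s • (1 : Mat n) + ∑ j, v j • a j}
      add_mem' := by
        rintro A B ⟨s, v, rfl⟩ ⟨s', v', rfl⟩
        refine ⟨s + s', v + v', ?_⟩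
        simp only [Pi.add_apply, add_smul, Finset.sum_add_distrib]; abel
      zero_mem' := ⟨0, 0, by simp⟩
      smul_mem' := by
        rintro c A ⟨s, v, rfl⟩
        refine ⟨c * s, c • v, ?_⟩
        simp only [Pi.smul_apply, smul_add, Finset.smul_sum, smul_smul, smul_eq_mul] }
  have hset : eSpace (fp p) ρ V = (W : Set (Mat n)) := Set.ext hE
  have hWH : ∀ A ∈ W, A.IsHermitian := by
    rintro A ⟨s, v, rfl⟩
    exact (herm_smul_one s).add (herm_sum haH v)
  tfae_have 1 → 2 := fun h => forward hp h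
  tfae_have 2 → 1 := fun h => backward hp hρ htr hV h.1 h.2
  tfae_have 2 ↔ 3 := by
    rw [hset]
    constructor
    · rintro ⟨h2, h3⟩
      exact ⟨h2, (normal_form W hWH h2 (pw_posDef hρ p)).1 h3⟩
    · rintro ⟨h2, h3⟩
      exact ⟨h2, (normal_form W hWH h2 (pw_posDef hρ p)).2 h3⟩
  tfae_finish

end Pool.Agent.Results.MP_2482e4_mp.AutoparallelPower
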